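import Mathlib

set_option autoImplicit false

namespace Pool.Agent.H571Z.Flo

open Filter Topology

/-- `u` is a `C^n` solution on the real line of
`u^(n) + sum_{k=0}^{n-2} p_k u^(k) = lam u`. -/
def IsSol (n : ℕ) (p : ℕ → ℝ → ℂ) (lam : ℂ) (u : ℝ → ℂ) : Prop :=
  ContDiff ℝ n u ∧ ∀ x : ℝ,
    iteratedDeriv n u x + ∑ k ∈ Finset.range (n - 1), p k x * iteratedDeriv k u x = lam * u x

/-- `T lam` is, for every `lam`, the matrix of the translation `u(x) ↦ u(x+b)` in the basis of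
fundamental solutions (`u_j^(k)(0) = δ_{jk}`, indices from `0`). -/
def IsFloquetMatrix (n : ℕ) (b : ℝ) (p : ℕ → ℝ → ℂ) (T : ℂ → Matrix (Fin n) (Fin n) ℂ) : Prop :=
  ∀ lam : ℂ, ∃ u : Fin n → ℝ → ℂ, (∀ j, IsSol n p lam (u j)) ∧
    (∀ j k : Fin n, iteratedDeriv (k : ℕ) (u j) 0 = if j = k then 1 else 0) ∧
    ∀ (j : Fin n) (x : ℝ), u j (x + b) = ∑ k, T lam k j * u k x

/-- The eigenspace of the matrix `A` for the eigenvalue `r`. -/
noncomputable def eig {n : ℕ} (A : Matrix (Fin n) (Fin n) ℂ) (r : ℂ) : Submodule ℂ (Fin n → ℂ) :=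
  Module.End.eigenspace (Matrix.toLin' A) r

/-- `exp (2 π i j / d)`. -/
noncomputable def rt (d : ℕ) (j : Fin d) : ℂ :=
  Complex.exp (2 * Real.pi * Complex.I * (j : ℕ) / d)

/-- Pathology of the first kind of the matrix function `N` over `l0`.
The eigenvalues of `N l` are distinct for `l ≠ l0` near `l0`; there is a ramification point of
degree `d > 1` over `l0`, described in the local uniformizer `t` (`l = l0 + t^d`) by an analytic
function `r`: `r t` is an eigenvalue of `N (l0 + t^d)` and the `d` branches `r (ω^j t)` are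
distinct; the span `V` of their eigenvectors has a frame `e i t` converging, as `t → 0`, to a
basis of the eigenspace of `N l0` for `r 0` (so this eigenspace has dimension `d > 1`). -/
def FirstKind {n : ℕ} (N : ℂ → Matrix (Fin n) (Fin n) ℂ) (l0 : ℂ) : Prop :=
  ∃ (d : ℕ) (r : ℂ → ℂ) (e : Fin d → ℂ → Fin n → ℂ), 1 < d ∧ AnalyticAt ℂ r 0 ∧
    (∀ᶠ l in 𝓝[≠] l0, (N l).charpoly.Separable) ∧
    (∀ᶠ t in 𝓝[≠] (0 : ℂ), (N (l0 + t ^ d)).charpoly.IsRoot (r t) ∧
      (Function.Injective fun j : Fin d => r (rt d j * t)) ∧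
      Submodule.span ℂ (Set.range fun i => e i t) =
        ⨆ j : Fin d, eig (N (l0 + t ^ d)) (r (rt d j * t))) ∧
    (∀ i, ContinuousAt (e i) 0) ∧ LinearIndependent ℂ (fun i => e i 0) ∧
    Submodule.span ℂ (Set.range fun i => e i 0) = eig (N l0) (r 0)

end Pool.Agent.H571Z.Flo
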