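import Pool.Agent.H571Z.Flo.Hill

set_option autoImplicit false

namespace Pool.Agent.H571Z.Flo

open Filter Topology Set Real

lemma re_deriv {f : ℝ → ℂ} {f' : ℂ} {x : ℝ} (h : HasDerivAt f f' x) :
    HasDerivAt (fun x => (f x).re) f'.re x :=
  Complex.reCLM.hasFDerivAt.comp_hasDerivAt x h

lemma im_deriv {f : ℝ → ℂ} {f' : ℂ} {x : ℝ} (h : HasDerivAt f f' x) :
    HasDerivAt (fun x => (f x).im) f'.im x :=
  Complex.imCLM.hasFDerivAt.comp_hasDerivAt x h

lemma conj_deriv {f : ℝ → ℂ} {f' : ℂ} {x : ℝ} (h : HasDerivAt f f' x) :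
    HasDerivAt (fun x => (starRingEnd ℂ) (f x)) ((starRingEnd ℂ) f') x :=
  Complex.conjCLE.toContinuousLinearMap.hasFDerivAt.comp_hasDerivAt x h

theorem hill_crit (q : ℝ → ℝ) (hq : Continuous q) (hp : Function.Periodic q π) {M : ℝ}
    (hM : ∀ x, |q x| ≤ M) (ψ dψ : ℝ → ℝ) (p1 : ∀ x, HasDerivAt ψ (dψ x) x)
    (p2 : ∀ x, HasDerivAt dψ (q x * ψ x) x) {r : ℝ} (hr : r < -4) (e1 : ψ π = r * ψ 0)
    (e2 : dψ π = r * dψ 0) (e0 : ψ 0 ≠ 0) :
    ∃ (Φ : ℂ → ℝ → Matrix (Fin 2) (Fin 2) ℂ) (z0 : ℝ), (∀ z, Φ z 0 = 1) ∧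
      (∀ z x j, HasDerivAt (fun x => Φ z x 0 j) (Φ z x 1 j) x) ∧
      (∀ z x j, HasDerivAt (fun x => Φ z x 1 j) ((q x + z) * Φ z x 0 j) x) ∧
      (∀ x i j, Differentiable ℂ fun z => Φ z x i j) ∧
      (∀ z, Φ z π 0 0 * Φ z π 1 1 - Φ z π 0 1 * Φ z π 1 0 = 1) ∧
      HasDerivAt (fun z => Φ z π 0 0 + Φ z π 1 1) 0 z0 ∧
      (Φ z0 π 0 0 + Φ z0 π 1 1).im = 0 ∧ (Φ z0 π 0 0 + Φ z0 π 1 1).re < -4 ∧
      ∃ t : ℂ, Φ (z0 + t) π 0 0 + Φ (z0 + t) π 1 1 ≠ Φ (z0 - t) π 0 0 + Φ (z0 - t) π 1 1 := by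
  obtain ⟨Φ, a0, a1, a2, a3, a4⟩ := hill_fund q hq hp
  have hM0 : 0 ≤ M := (abs_nonneg _).trans (hM 0)
  have hdet : ∀ z, Φ z π 0 0 * Φ z π 1 1 - Φ z π 0 1 * Φ z π 1 0 = 1 := by
    intro z
    have hd : ∀ x, HasDerivAt (fun x => Φ z x 0 0 * Φ z x 1 1 - Φ z x 0 1 * Φ z x 1 0) 0 x := by
      intro x
      refine (((a1 z x 0).fun_mul (a2 z x 1)).fun_sub
        ((a1 z x 1).fun_mul (a2 z x 0))).congr_deriv ?_
      ring
    have := is_const_of_deriv_eq_zero (fun x => (hd x).differentiableAt) (fun x => (hd x).deriv) π 0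
    simp only [a0] at this
    simpa using this
  have hreal : ∀ (z : ℝ) x j, (Φ z x 0 j).im = 0 ∧ (Φ z x 1 j).im = 0 := by
    intro z x j
    have := a4 z (fun x => (starRingEnd ℂ) (Φ z x 0 j)) (fun x => (starRingEnd ℂ) (Φ z x 1 j))
      (fun x => conj_deriv (a1 z x j)) (fun x => by simpa using conj_deriv (a2 z x j)) x
    simp only [a0] at this
    rw [← Complex.conj_eq_iff_im, ← Complex.conj_eq_iff_im]
    fin_cases j <;> simpa [Matrix.one_apply] using this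
  set D : ℂ → ℂ := fun z => Φ z π 0 0 + Φ z π 1 1 with hD
  have dD : Differentiable ℂ D := (a3 π 0 0).add (a3 π 1 1)
  have r1 : ∀ (z : ℝ) x j, HasDerivAt (fun x => (Φ z x 0 j).re) (Φ z x 1 j).re x :=
    fun z x j => re_deriv (a1 z x j)
  have r2 : ∀ (z : ℝ) x j, HasDerivAt (fun x => (Φ z x 1 j).re) ((q x + z) * (Φ z x 0 j).re) x :=
    fun z x j => by simpa using re_deriv (a2 z x j)
  have big : ∀ z : ℝ, M + 1 ≤ z → 4 < (D z).re := by
    intro z hz
    have hg : ∀ x, 1 ≤ q x + z := fun x => by linarith [(abs_le.1 (hM x)).1]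
    have c := grow_c (g := fun x => q x + z) (r1 z · 0) (r2 z · 0) hg (by simp [a0]) (by simp [a0])
    have s := grow_s (g := fun x => q x + z) (r1 z · 1) (r2 z · 1) hg (by simp [a0]) (by simp [a0])
    simp only [hD, Complex.add_re]
    linarith
  have small : ∀ z : ℝ, z ≤ -(4 * M + 1) ^ 2 → |(D z).re| ≤ 4 := by
    intro z hz
    have hz0 : 0 ≤ -z := by nlinarith
    set k := √(-z) with hk
    have k2 : k ^ 2 = -z := Real.sq_sqrt hz0
    have k1 : 4 * M + 1 ≤ k := Real.le_sqrt_of_sq_le (by linarith)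
    have hg : ∀ x, |q x + z + k ^ 2| ≤ k / 4 := fun x => by
      rw [k2, add_neg_cancel_right]; linarith [hM x]
    have c := energy (g := fun x => q x + z) (r1 z · 0) (r2 z · 0) hg
    have s := energy (g := fun x => q x + z) (r1 z · 1) (r2 z · 1) hg
    simp [a0] at c s
    have kp : 0 < k ^ 2 := pow_pos (by linarith) 2
    have c' : (Φ z π 0 0).re ^ 2 ≤ 2 ^ 2 := by
      have : k ^ 2 * (Φ z π 0 0).re ^ 2 ≤ k ^ 2 * 2 ^ 2 := by nlinarith [sq_nonneg (Φ z π 1 0).re]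
      exact le_of_mul_le_mul_left this kp
    have s' : (Φ z π 1 1).re ^ 2 ≤ 2 ^ 2 := by
      nlinarith [mul_nonneg kp.le (sq_nonneg (Φ z π 0 1).re)]
    have c'' := abs_le_of_sq_le_sq' c' (by norm_num)
    have s'' := abs_le_of_sq_le_sq' s' (by norm_num)
    simp only [hD, Complex.add_re]
    rw [abs_le]
    constructor <;> linarith [c''.1, c''.2, s''.1, s''.2]
  have at0 : (D (0:ℝ)).re < -4 := by
    have := a4 0 (fun x => (ψ x : ℂ)) (fun x => (dψ x : ℂ)) (fun x => (p1 x).ofReal_comp)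
      (fun x => by simpa using (p2 x).ofReal_comp) π
    rw [e1, e2] at this
    push_cast at this
    obtain ⟨t1, t2⟩ := this
    have e0' : (ψ 0 : ℂ) ≠ 0 := by exact_mod_cast e0
    have hr0 : (r : ℂ) ≠ 0 := by
      have : r ≠ 0 := by linarith
      exact_mod_cast this
    have ch : (r : ℂ) ^ 2 - D 0 * r + 1 = 0 := by
      apply mul_left_cancel₀ e0'
      simp only [hD]
      linear_combination (r - Φ 0 π 1 1) * t1 + Φ 0 π 0 1 * t2 - (ψ 0 : ℂ) * hdet 0
    have : D 0 = ((r + r⁻¹ : ℝ) : ℂ) := by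
      push_cast
      field_simp
      linear_combination -ch
    rw [Complex.ofReal_zero, this, Complex.ofReal_re]
    have : r⁻¹ < 0 := inv_lt_zero.2 (by linarith)
    linarith
  set K := (4 * M + 1) ^ 2 with hK
  have hK1 : M + 1 ≤ K := by nlinarith
  have hK0 : 0 < K := by positivity
  have cD : Continuous fun z : ℝ => (D z).re :=
    Complex.continuous_re.comp (dD.continuous.comp Complex.continuous_ofReal)
  obtain ⟨z0, hz0, hmin⟩ := (isCompact_Icc (a := -K) (b := K)).exists_isMinOn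
    ⟨0, by constructor <;> linarith⟩ cD.continuousOn
  have le0 : (D z0).re < -4 :=
    lt_of_le_of_lt (hmin (show (0:ℝ) ∈ Icc (-K) K by constructor <;> linarith)) at0
  have gmin : ∀ z : ℝ, (D z0).re ≤ (D z).re := by
    intro z
    rcases le_total z (-K) with h | h
    · linarith [(abs_le.1 (small z h)).1]
    · rcases le_total z K with h' | h'
      · exact hmin ⟨h, h'⟩
      · linarith [big z (hK1.trans h')]
  have hd : HasDerivAt (fun z : ℝ => D z) (deriv D z0) z0 := (dD z0).hasDerivAt.comp_ofReal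
  have dre : (deriv D z0).re = 0 :=
    IsLocalMin.hasDerivAt_eq_zero (Eventually.of_forall gmin) (re_deriv hd)
  have him : ∀ z : ℝ, (D z).im = 0 := fun z => by
    simp only [hD, Complex.add_im, (hreal z π 0).1, (hreal z π 1).2, add_zero]
  have dim : (deriv D z0).im = 0 := by
    have h1 := im_deriv hd
    simp only [him] at h1
    exact h1.unique (hasDerivAt_const _ _)
  have d0 : deriv D z0 = 0 := Complex.ext dre dim
  refine ⟨Φ, z0, a0, a1, a2, a3, hdet, d0 ▸ (dD z0).hasDerivAt, him z0, le0,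
    ((2 * K : ℝ) : ℂ), fun h => ?_⟩
  have b1 := big (z0 + 2 * K) (by linarith [hz0.1])
  have b2 := small (z0 - 2 * K) (by linarith [hz0.2])
  have : D ((z0 + 2 * K : ℝ) : ℂ) = D ((z0 - 2 * K : ℝ) : ℂ) := by
    simp only [hD]
    push_cast at h ⊢
    exact h
  rw [this] at b1
  linarith [(abs_le.1 b2).2]

end Pool.Agent.H571Z.Flo
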