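import Pool.Agent.H571Z.Flo.ODE

set_option autoImplicit false

namespace Pool.Agent.H571Z.Flo

open Filter Topology Set Real

lemma mono0 {F F' : ℝ → ℝ} (h : ∀ x, HasDerivAt F (F' x) x) (hn : ∀ x, 0 ≤ x → 0 ≤ F' x)
    {x : ℝ} (hx : 0 ≤ x) : F 0 ≤ F x := by
  have : MonotoneOn F (Ici 0) := by
    refine monotoneOn_of_deriv_nonneg (convex_Ici 0)
      (fun y _ => (h y).continuousAt.continuousWithinAt)
      (fun y _ => (h y).differentiableAt.differentiableWithinAt) fun y hy => ?_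
    rw [(h y).deriv]
    exact hn y (interior_subset hy)
  exact this self_mem_Ici hx hx

lemma ge_one {F : ℝ → ℝ} (hc : Continuous F) (h0 : F 0 = 1) (h : ∀ x, 0 ≤ x → 1 ≤ F x ^ 2)
    {x : ℝ} (hx : 0 ≤ x) : 1 ≤ F x := by
  by_contra hlt
  have h1 : F x ≤ 0 := by nlinarith [h x hx]
  obtain ⟨y, hy, hy0⟩ := intermediate_value_Icc' hx hc.continuousOn (show (0:ℝ) ∈ Icc (F x) (F 0)
    from ⟨h1, by rw [h0]; norm_num⟩)
  have := h y hy.1
  rw [hy0] at this
  norm_num at this

section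
variable {g f df : ℝ → ℝ} (h1 : ∀ x, HasDerivAt f (df x) x) (h2 : ∀ x, HasDerivAt df (g x * f x) x)
include h1 h2

lemma prod_nonneg (hg : ∀ x, 1 ≤ g x) (h0 : f 0 * df 0 = 0) {x : ℝ} (hx : 0 ≤ x) :
    0 ≤ f x * df x := by
  have := mono0 (F := fun x => f x * df x) (fun x => (h1 x).fun_mul (h2 x))
    (fun y _ => by nlinarith [hg y, sq_nonneg (f y), sq_nonneg (df y)]) hx
  simpa only [h0] using this

lemma grow_c (hg : ∀ x, 1 ≤ g x) (a0 : f 0 = 1) (a1 : df 0 = 0) : 3 < f π := by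
  have hf : Continuous f := continuous_iff_continuousAt.2 fun x => (h1 x).continuousAt
  have p := fun x (hx : 0 ≤ x) => prod_nonneg h1 h2 hg (by simp [a1]) hx
  have q1 : ∀ x, 0 ≤ x → 1 ≤ f x ^ 2 := fun x hx => by
    have := mono0 (F := fun x => f x * f x) (fun x => (h1 x).fun_mul (h1 x))
      (fun y hy => by nlinarith [p y hy]) hx
    simp only [a0] at this
    nlinarith
  have q2 := fun x (hx : 0 ≤ x) => ge_one hf a0 q1 hx
  have q3 : ∀ x, 0 ≤ x → x ≤ df x := fun x hx => by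
    have := mono0 (F := fun x => df x - x) (fun x => (h2 x).fun_sub (hasDerivAt_id' x))
      (fun y hy => by nlinarith [hg y, q2 y hy]) hx
    simp only [a1] at this
    linarith
  have := mono0 (F := fun x => f x - x * x / 2)
    (fun x => (h1 x).fun_sub (((hasDerivAt_id' x).fun_mul (hasDerivAt_id' x)).div_const 2))
    (fun y hy => by nlinarith [q3 y hy]) pi_pos.le
  simp only [a0] at this
  nlinarith [pi_gt_three]

lemma grow_s (hg : ∀ x, 1 ≤ g x) (a0 : f 0 = 0) (a1 : df 0 = 1) : 1 ≤ df π := by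
  have hf : Continuous df := continuous_iff_continuousAt.2 fun x => (h2 x).continuousAt
  have p := fun x (hx : 0 ≤ x) => prod_nonneg h1 h2 hg (by simp [a0]) hx
  have q1 : ∀ x, 0 ≤ x → 1 ≤ df x ^ 2 := fun x hx => by
    have := mono0 (F := fun x => df x * df x) (fun x => (h2 x).fun_mul (h2 x))
      (fun y hy => by
        have := mul_nonneg (zero_le_one.trans (hg y)) (p y hy)
        nlinarith) hx
    simp only [a1] at this
    nlinarith
  exact ge_one hf a1 q1 pi_pos.le

lemma energy {k : ℝ} (hg : ∀ x, |g x + k ^ 2| ≤ k / 4) :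
    df π ^ 2 + k ^ 2 * f π ^ 2 ≤ 4 * (df 0 ^ 2 + k ^ 2 * f 0 ^ 2) := by
  have he : ∀ x : ℝ, HasDerivAt (fun x : ℝ => exp (-x / 4)) (exp (-x / 4) * (-1 / 4)) x :=
    fun x => (((hasDerivAt_id' x).neg).div_const 4).exp
  have := mono0 (F := fun x => -((df x * df x + k ^ 2 * (f x * f x)) * exp (-x / 4)))
    (fun x => ((((h2 x).fun_mul (h2 x)).fun_add (((h1 x).fun_mul (h1 x)).const_mul (k ^ 2))).fun_mul
      (he x)).fun_neg)
    (fun y _ => by
      have e := exp_pos (-y / 4)
      have a := abs_le.1 (hg y)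
      have key : 2 * (g y + k ^ 2) * (f y * df y) ≤ (df y * df y + k ^ 2 * (f y * f y)) / 4 := by
        rcases le_total 0 (f y * df y) with h | h
        · nlinarith [sq_nonneg (df y - k * f y)]
        · nlinarith [sq_nonneg (df y + k * f y)]
      have := mul_le_mul_of_nonneg_right key e.le
      nlinarith) pi_pos.le
  simp only [neg_zero, zero_div, exp_zero, mul_one] at this
  have e1 : 1 / 4 ≤ exp (-π / 4) := by
    have : exp (-1) ≤ exp (-π / 4) := exp_le_exp.2 (by linarith [pi_lt_four])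
    have h3 : exp 1 < 4 := lt_trans exp_one_lt_three (by norm_num)
    have h4 : exp (-1) * exp 1 = 1 := by rw [← exp_add]; simp
    nlinarith [exp_pos (-1)]
  have nn : 0 ≤ df π * df π + k ^ 2 * (f π * f π) := by
    nlinarith [mul_self_nonneg (df π), mul_nonneg (sq_nonneg k) (mul_self_nonneg (f π))]
  nlinarith

end

/-- Monodromy data of the Hill equation `u'' = (q + z) u`. -/
theorem hill_fund (q : ℝ → ℝ) (hq : Continuous q) (hp : Function.Periodic q π) :
    ∃ Φ : ℂ → ℝ → Matrix (Fin 2) (Fin 2) ℂ, (∀ z, Φ z 0 = 1) ∧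
      (∀ z x j, HasDerivAt (fun x => Φ z x 0 j) (Φ z x 1 j) x) ∧
      (∀ z x j, HasDerivAt (fun x => Φ z x 1 j) ((q x + z) * Φ z x 0 j) x) ∧
      (∀ x i j, Differentiable ℂ fun z => Φ z x i j) ∧
      ∀ (z : ℂ) (u du : ℝ → ℂ), (∀ x, HasDerivAt u (du x) x) →
        (∀ x, HasDerivAt du ((q x + z) * u x) x) →
        ∀ x, u x = Φ z x 0 0 * u 0 + Φ z x 0 1 * du 0 ∧
          du x = Φ z x 1 0 * u 0 + Φ z x 1 1 * du 0 := by
  obtain ⟨Φ, a0, a1, a2, a3⟩ := exists_fund (n := 2) (fun x => !![0, 1; (q x : ℂ), 0])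
    (fun _ => !![0, 0; 1, 0]) (by
      refine continuous_matrix fun i j => ?_
      fin_cases i <;> fin_cases j <;> simp <;> fun_prop) continuous_const pi_pos.ne'
    (fun x => by simp only [hp x]) (fun x => rfl)
  refine ⟨Φ, a0, fun z x j => ?_, fun z x j => ?_, a2, fun z u du h1 h2 x => ?_⟩
  · have := hasDerivAt_pi.1 (a1 z x j) 0
    simpa [Matrix.mulVec, dotProduct, Fin.sum_univ_two] using this
  · have := hasDerivAt_pi.1 (a1 z x j) 1
    simpa [Matrix.mulVec, dotProduct, Fin.sum_univ_two] using this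
  · have := a3 z (fun x => ![u x, du x]) (fun x => by
      refine hasDerivAt_pi.2 fun i => ?_
      fin_cases i
      · simpa [Matrix.mulVec, dotProduct, Fin.sum_univ_two] using h1 x
      · simpa [Matrix.mulVec, dotProduct, Fin.sum_univ_two] using h2 x) x
    constructor
    · simpa [Matrix.mulVec, dotProduct, Fin.sum_univ_two] using congrFun this 0
    · simpa [Matrix.mulVec, dotProduct, Fin.sum_univ_two] using congrFun this 1

end Pool.Agent.H571Z.Flo
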