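import Pool.Agent.H571Z.Flo.Defs

set_option autoImplicit false

namespace Pool.Agent.H571Z.Flo

open Filter Topology

lemma mem_eig {n : ℕ} {A : Matrix (Fin n) (Fin n) ℂ} {r : ℂ} {v : Fin n → ℂ} :
    v ∈ eig A r ↔ A.mulVec v = r • v := by
  unfold eig
  rw [Module.End.mem_eigenspace_iff, Matrix.toLin'_apply]

lemma isRoot_of {n : ℕ} {A : Matrix (Fin n) (Fin n) ℂ} {r : ℂ} {v : Fin n → ℂ} (hv : v ≠ 0)
    (h : A.mulVec v = r • v) : A.charpoly.IsRoot r := by
  rw [← Matrix.charpoly_toLin', ← Module.End.hasEigenvalue_iff_isRoot_charpoly]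
  exact Module.End.hasEigenvalue_of_hasEigenvector ⟨mem_eig.2 h, hv⟩

lemma simple_spec {n : ℕ} (A : Matrix (Fin n) (Fin n) ℂ) (μ : Fin n → ℂ)
    (hμ : Function.Injective μ) (x : Fin n → Fin n → ℂ) (hx : ∀ i, x i ≠ 0)
    (h : ∀ i, A.mulVec (x i) = μ i • x i) :
    A.charpoly.Separable ∧ ∀ i, eig A (μ i) = Submodule.span ℂ {x i} := by
  classical
  constructor
  · rw [← Polynomial.nodup_roots_iff_of_splits A.charpoly_monic.ne_zero (IsAlgClosed.splits _)]
    rw [Polynomial.roots_eq_of_natDegree_le_card_of_ne_zero (S := Finset.univ.image μ)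
      (fun y hy => by
        obtain ⟨i, -, rfl⟩ := Finset.mem_image.1 hy
        exact isRoot_of (hx i) (h i))
      (by rw [Matrix.charpoly_natDegree_eq_dim, Finset.card_image_of_injective _ hμ]; simp)
      A.charpoly_monic.ne_zero]
    exact Finset.nodup _
  · intro i
    have li : LinearIndependent ℂ x :=
      Module.End.eigenvectors_linearIndependent' (Matrix.toLin' A) μ hμ x
        fun i => ⟨mem_eig.2 (h i), hx i⟩
    refine le_antisymm (fun y hy => ?_) ?_
    · have hsp : Submodule.span ℂ (Set.range x) = ⊤ :=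
        li.span_eq_top_of_card_eq_finrank' (by simp)
      have : y ∈ Submodule.span ℂ (Set.range x) := hsp ▸ Submodule.mem_top
      obtain ⟨c, rfl⟩ := (Submodule.mem_span_range_iff_exists_fun ℂ).1 this
      have hy' := mem_eig.1 hy
      rw [Matrix.mulVec_sum, Finset.smul_sum] at hy'
      simp only [Matrix.mulVec_smul, h, smul_smul] at hy'
      have h0 : ∑ j, (c j * μ j - μ i * c j) • x j = 0 := by
        simp only [sub_smul, Finset.sum_sub_distrib, hy', sub_self]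
      have h1 := Fintype.linearIndependent_iff.1 li _ h0
      refine Submodule.sum_mem _ fun j _ => ?_
      by_cases hj : j = i
      · subst hj
        exact Submodule.smul_mem _ _ (Submodule.mem_span_singleton_self _)
      · have h2 : c j * (μ j - μ i) = 0 := by rw [← h1 j]; ring
        rcases mul_eq_zero.1 h2 with h3 | h3
        · simp [h3]
        · exact absurd (hμ (sub_eq_zero.1 h3)) hj
    · rw [Submodule.span_le, Set.singleton_subset_iff]
      exact mem_eig.2 (h i)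

lemma lim_eq {X : Type} [TopologicalSpace X] [T2Space X] {f g : ℂ → X} (hf : ContinuousAt f 0)
    (hg : ContinuousAt g 0) (h : ∀ᶠ t in 𝓝[≠] (0:ℂ), f t = g t) : f 0 = g 0 :=
  tendsto_nhds_unique_of_eventuallyEq (l := 𝓝[≠] (0:ℂ)) (hf.tendsto.mono_left nhdsWithin_le_nhds)
    (hg.tendsto.mono_left nhdsWithin_le_nhds) h

lemma neg_ev {P : ℂ → Prop} (h : ∀ᶠ t in 𝓝 (0:ℂ), P t) : ∀ᶠ t in 𝓝 (0:ℂ), P (-t) := by
  have : Tendsto (fun t : ℂ => -t) (𝓝 0) (𝓝 0) := by
    simpa using (continuous_neg (G := ℂ)).tendsto 0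
  exact this.eventually h

/-- odd divided difference -/
noncomputable def odd {X : Type} [NormedAddCommGroup X] [NormedSpace ℂ X] (v : ℂ → X) : ℂ → X :=
  dslope (fun t => v t - v (-t)) 0

lemma odd_hasDeriv {X : Type} [NormedAddCommGroup X] [NormedSpace ℂ X] {v : ℂ → X} {v' : X}
    (hv : HasDerivAt v v' 0) : HasDerivAt (fun t => v t - v (-t)) ((2:ℂ) • v') 0 := by
  have h1 : HasDerivAt v v' (-0) := by simpa using hv
  have h2 := h1.scomp (0:ℂ) (hasDerivAt_neg (0:ℂ))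
  have := hv.sub h2
  refine this.congr_deriv ?_
  rw [two_smul]; simp

lemma odd_cont {X : Type} [NormedAddCommGroup X] [NormedSpace ℂ X] {v : ℂ → X} {v' : X}
    (hv : HasDerivAt v v' 0) : ContinuousAt (odd v) 0 :=
  continuousAt_dslope_same.2 (odd_hasDeriv hv).differentiableAt

lemma odd_zero {X : Type} [NormedAddCommGroup X] [NormedSpace ℂ X] {v : ℂ → X} {v' : X}
    (hv : HasDerivAt v v' 0) : odd v 0 = (2:ℂ) • v' := by
  unfold odd
  rw [dslope_same, (odd_hasDeriv hv).deriv]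

lemma odd_ne {X : Type} [NormedAddCommGroup X] [NormedSpace ℂ X] (v : ℂ → X) {t : ℂ}
    (ht : t ≠ 0) : odd v t = t⁻¹ • (v t - v (-t)) := by
  unfold odd
  rw [dslope_of_ne _ ht, slope_def_module]
  simp

lemma odd_eig {n : ℕ} {T : ℂ → Matrix (Fin n) (Fin n) ℂ} (hT : ContinuousAt T 0) {ρ : ℂ → ℂ}
    (hρ : HasDerivAt ρ 0 0) {v : ℂ → Fin n → ℂ} {v' : Fin n → ℂ} (hv : HasDerivAt v v' 0)
    (he : ∀ᶠ t in 𝓝 (0:ℂ), (T (t ^ 2)).mulVec (v t) = ρ t • v t) :
    (T 0).mulVec (odd v 0) = ρ 0 • odd v 0 := by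
  have hT2 : ContinuousAt (fun t : ℂ => T (t ^ 2)) 0 := by
    refine ContinuousAt.comp (g := T) (f := fun t : ℂ => t ^ 2) ?_ (by fun_prop)
    simpa using hT
  have hn : ContinuousAt (fun t : ℂ => ρ (-t)) 0 := by
    refine ContinuousAt.comp (g := ρ) (f := fun t : ℂ => -t) ?_ (by fun_prop)
    simpa using hρ.continuousAt
  have c1 : ContinuousAt (fun t : ℂ => (T (t ^ 2)).mulVec (odd v t)) 0 := by
    have : Continuous fun p : Matrix (Fin n) (Fin n) ℂ × (Fin n → ℂ) => p.1.mulVec p.2 :=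
      continuous_fst.matrix_mulVec continuous_snd
    exact this.continuousAt.comp (hT2.prodMk (odd_cont hv))
  have c2 : ContinuousAt (fun t : ℂ => ρ (-t) • odd v t + odd ρ t • v t) 0 :=
    (hn.smul (odd_cont hv)).add ((odd_cont hρ).smul hv.continuousAt)
  have := lim_eq c1 c2 (by
    filter_upwards [nhdsWithin_le_nhds he, nhdsWithin_le_nhds (neg_ev he), self_mem_nhdsWithin]
      with t h1 h2 ht
    have ht' : t ≠ 0 := ht
    rw [odd_ne v ht', odd_ne ρ ht', Matrix.mulVec_smul, Matrix.mulVec_sub, h1]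
    rw [neg_sq] at h2
    rw [h2]
    ext i
    simp
    ring)
  simpa [odd_zero hρ] using this

lemma rt2_0 : rt 2 0 = 1 := by simp [rt]

lemma rt2_1 : rt 2 1 = -1 := by
  unfold rt
  rw [← Complex.exp_pi_mul_I]
  congr 1
  simp
  ring

theorem firstKind_of {T : ℂ → Matrix (Fin 4) (Fin 4) ℂ} (hT : ContinuousAt T 0) {ρ σ : ℂ → ℂ}
    (aρ : AnalyticAt ℂ ρ 0) (hρ : HasDerivAt ρ 0 0) (hσ : HasDerivAt σ 0 0) (hne : ρ 0 ≠ σ 0)
    {v w : ℂ → Fin 4 → ℂ} {v' w' : Fin 4 → ℂ} (hv : HasDerivAt v v' 0) (hw : HasDerivAt w w' 0)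
    (lv : LinearIndependent ℂ ![v 0, v']) (lw : LinearIndependent ℂ ![w 0, w'])
    (ev : ∀ᶠ t in 𝓝 (0:ℂ), (T (t ^ 2)).mulVec (v t) = ρ t • v t)
    (ew : ∀ᶠ t in 𝓝 (0:ℂ), (T (t ^ 2)).mulVec (w t) = σ t • w t)
    (oρ : ∀ᶠ t in 𝓝[≠] (0:ℂ), ρ t ≠ ρ (-t)) (oσ : ∀ᶠ t in 𝓝[≠] (0:ℂ), σ t ≠ σ (-t)) :
    FirstKind T 0 ∧ ⨆ μ, eig (T 0) μ = ⊤ := by
  have hv0 : v 0 ≠ 0 := by simpa using lv.ne_zero 0
  have hw0 : w 0 ≠ 0 := by simpa using lw.ne_zero 0
  have nv : ∀ᶠ t in 𝓝 (0:ℂ), v t ≠ 0 := hv.continuousAt.eventually_ne hv0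
  have nw : ∀ᶠ t in 𝓝 (0:ℂ), w t ≠ 0 := hw.continuousAt.eventually_ne hw0
  have n1 : ∀ᶠ t in 𝓝 (0:ℂ), ρ t ≠ σ t := by
    have : ContinuousAt (fun t => ρ t - σ t) 0 := hρ.continuousAt.sub hσ.continuousAt
    filter_upwards [this.eventually_ne (sub_ne_zero.2 hne)] with t ht using sub_ne_zero.1 ht
  have n2 : ∀ᶠ t in 𝓝 (0:ℂ), ρ t ≠ σ (-t) := by
    have hn : ContinuousAt (fun t : ℂ => σ (-t)) 0 := by
      refine ContinuousAt.comp (g := σ) (f := fun t : ℂ => -t) ?_ (by fun_prop)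
      simpa using hσ.continuousAt
    have : ContinuousAt (fun t => ρ t - σ (-t)) 0 := hρ.continuousAt.sub hn
    have h0 : (fun t => ρ t - σ (-t)) 0 ≠ 0 := by simpa using sub_ne_zero.2 hne
    filter_upwards [this.eventually_ne h0] with t ht using sub_ne_zero.1 ht
  have main : ∀ᶠ t in 𝓝[≠] (0:ℂ), (T (t ^ 2)).charpoly.Separable ∧
      eig (T (t ^ 2)) (ρ t) = Submodule.span ℂ {v t} ∧
      eig (T (t ^ 2)) (ρ (-t)) = Submodule.span ℂ {v (-t)} := by
    filter_upwards [nhdsWithin_le_nhds ev, nhdsWithin_le_nhds (neg_ev ev), nhdsWithin_le_nhds ew,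
      nhdsWithin_le_nhds (neg_ev ew), nhdsWithin_le_nhds nv, nhdsWithin_le_nhds (neg_ev nv),
      nhdsWithin_le_nhds nw, nhdsWithin_le_nhds (neg_ev nw), nhdsWithin_le_nhds n1,
      nhdsWithin_le_nhds (neg_ev n1), nhdsWithin_le_nhds n2, nhdsWithin_le_nhds (neg_ev n2),
      oρ, oσ] with t e1 e2 e3 e4 z1 z2 z3 z4 d1 d2 d3 d4 d5 d6
    simp only [neg_sq, neg_neg] at e1 e2 e3 e4 z1 z2 z3 z4 d1 d2 d3 d4
    have := simple_spec (T (t ^ 2)) ![ρ t, ρ (-t), σ t, σ (-t)] (by
        intro i j hij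
        fin_cases i <;> fin_cases j <;> simp_all [eq_comm])
      ![v t, v (-t), w t, w (-t)] (by intro i; fin_cases i <;> simpa)
      (by intro i; fin_cases i <;> simpa)
    exact ⟨this.1, this.2 0, this.2 1⟩
  -- the two eigenspaces at `0`
  have sp : ∀ {u : ℂ → Fin 4 → ℂ} {u' : Fin 4 → ℂ} {τ : ℂ → ℂ}, HasDerivAt u u' 0 →
      LinearIndependent ℂ ![u 0, u'] → HasDerivAt τ 0 0 →
      (∀ᶠ t in 𝓝 (0:ℂ), (T (t ^ 2)).mulVec (u t) = τ t • u t) →
      LinearIndependent ℂ ![u 0, odd u 0] ∧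
      Submodule.span ℂ (Set.range ![u 0, odd u 0]) ≤ eig (T 0) (τ 0) := by
    intro u u' τ hu lu hτ eu
    constructor
    · rw [odd_zero hu, LinearIndependent.pair_iff] at *
      intro s t hst
      have := lu s (t * 2) (by rw [← hst, smul_smul])
      exact ⟨this.1, by simpa using this.2⟩
    · rw [Submodule.span_le]
      rintro _ ⟨i, rfl⟩
      fin_cases i
      · have := eu.self_of_nhds
        exact mem_eig.2 (by simpa using this)
      · exact mem_eig.2 (odd_eig hT hτ hu eu)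
  obtain ⟨l1, s1⟩ := sp hv lv hρ ev
  obtain ⟨l2, s2⟩ := sp hw lw hσ ew
  have f1 : Module.finrank ℂ (Submodule.span ℂ (Set.range ![v 0, odd v 0])) = 2 := by
    simpa using finrank_span_eq_card l1
  have f2 : Module.finrank ℂ (Submodule.span ℂ (Set.range ![w 0, odd w 0])) = 2 := by
    simpa using finrank_span_eq_card l2
  have g1 := Submodule.finrank_mono s1
  have g2 := Submodule.finrank_mono s2
  have dj : eig (T 0) (ρ 0) ⊓ eig (T 0) (σ 0) = ⊥ :=
    disjoint_iff.1 (Module.End.disjoint_genEigenspace _ hne 1 1)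
  have hs := Submodule.finrank_sup_add_finrank_inf_eq (eig (T 0) (ρ 0)) (eig (T 0) (σ 0))
  rw [dj, finrank_bot] at hs
  have h4 : Module.finrank ℂ ↥(eig (T 0) (ρ 0) ⊔ eig (T 0) (σ 0)) ≤ 4 := by
    simpa using Submodule.finrank_le (eig (T 0) (ρ 0) ⊔ eig (T 0) (σ 0))
  refine ⟨⟨2, ρ, ![v, odd v], by norm_num, aρ, ?_, ?_, ?_, ?_, ?_⟩, ?_⟩
  · have h1 := main.mono fun t ht => ht.1
    rw [eventually_nhdsWithin_iff, Metric.eventually_nhds_iff] at h1 ⊢
    obtain ⟨ε, hε, h1⟩ := h1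
    refine ⟨ε ^ 2, by positivity, fun l hl hl0 => ?_⟩
    obtain ⟨t, rfl⟩ := IsAlgClosed.exists_pow_nat_eq l (n := 2) (by norm_num)
    refine h1 ?_ (by simpa using hl0)
    rw [dist_zero_right] at hl ⊢
    rw [norm_pow] at hl
    exact lt_of_pow_lt_pow_left₀ 2 hε.le hl
  · filter_upwards [main, nhdsWithin_le_nhds ev, nhdsWithin_le_nhds nv, oρ, self_mem_nhdsWithin]
      with t hm e1 z1 d1 ht
    have ht' : t ≠ 0 := ht
    rw [zero_add]
    refine ⟨isRoot_of z1 e1, ?_, ?_⟩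
    · intro i j hij
      fin_cases i <;> fin_cases j <;> simp_all [rt2_0, rt2_1, eq_comm]
    · have two : ∀ U : Fin 2 → Submodule ℂ (Fin 4 → ℂ), ⨆ j, U j = U 0 ⊔ U 1 := fun U =>
        le_antisymm (iSup_le fun j => by fin_cases j; exacts [le_sup_left, le_sup_right])
          (sup_le (le_iSup _ _) (le_iSup _ _))
      rw [two, rt2_0, rt2_1, one_mul, neg_one_mul, hm.2.1, hm.2.2,
        ← Submodule.span_union]
      refine le_antisymm ?_ ?_
      · rw [Submodule.span_le]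
        rintro _ ⟨i, rfl⟩
        fin_cases i
        · exact Submodule.subset_span (by simp)
        · simp only [Fin.mk_one, Matrix.cons_val_one, Matrix.cons_val_fin_one, odd_ne v ht']
          exact Submodule.smul_mem _ _ (Submodule.sub_mem _ (Submodule.subset_span (by simp))
            (Submodule.subset_span (by simp)))
      · rw [Submodule.span_le]
        have a0 : v t ∈ Submodule.span ℂ (Set.range fun i => ![v, odd v] i t) :=
          Submodule.subset_span ⟨0, rfl⟩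
        have a1 : odd v t ∈ Submodule.span ℂ (Set.range fun i => ![v, odd v] i t) :=
          Submodule.subset_span ⟨1, rfl⟩
        rintro _ (rfl | rfl)
        · exact a0
        · have : v (-t) = v t - t • odd v t := by
            rw [odd_ne v ht', smul_smul, mul_inv_cancel₀ ht', one_smul]; abel
          rw [this]
          exact Submodule.sub_mem _ a0 (Submodule.smul_mem _ _ a1)
  · intro i
    fin_cases i
    · exact hv.continuousAt
    · exact odd_cont hv
  · convert l1 using 1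
    ext i : 1
    fin_cases i <;> rfl
  · have : (fun i => ![v, odd v] i 0) = ![v 0, odd v 0] := by
      ext i : 1
      fin_cases i <;> rfl
    rw [this]
    exact Submodule.eq_of_le_of_finrank_le s1 (by omega)
  · have : eig (T 0) (ρ 0) ⊔ eig (T 0) (σ 0) = ⊤ :=
      Submodule.eq_top_of_finrank_eq (by simp; omega)
    rw [eq_top_iff, ← this]
    exact sup_le (le_iSup _ _) (le_iSup _ _)

end Pool.Agent.H571Z.Flo
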