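import Pool.Agent.H571Z.Flo.Disc
import Pool.Agent.H571Z.Flo.Path

set_option autoImplicit false

namespace Pool.Agent.H571Z.Flo

open Filter Topology Set Real

lemma branch {N : ℂ → Matrix (Fin 2) (Fin 2) ℂ} (dN : ∀ i j, Differentiable ℂ fun t => N t i j)
    (hdet : ∀ t, N t 0 0 * N t 1 1 - N t 0 1 * N t 1 0 = 1)
    (hD : HasDerivAt (fun t => N t 0 0 + N t 1 1) 0 0)
    (hodd : ∃ t, N t 0 0 + N t 1 1 ≠ N (-t) 0 0 + N (-t) 1 1) {τ τ' : ℂ → ℂ}
    (dτ : DifferentiableAt ℂ τ 0) (dτ' : DifferentiableAt ℂ τ' 0)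
    (hs : ∀ t, τ t + τ' t = N t 0 0 + N t 1 1) (hp : ∀ t, τ t * τ' t = 1) (hne : τ 0 ≠ τ' 0) :
    HasDerivAt τ 0 0 ∧ (∀ᶠ t in 𝓝[≠] (0:ℂ), τ t ≠ τ (-t)) ∧
    ∃ a0 a1 : ℂ → ℂ, DifferentiableAt ℂ a0 0 ∧ DifferentiableAt ℂ a1 0 ∧ ¬ (a0 0 = 0 ∧ a1 0 = 0) ∧
      ∀ t, N t 0 0 * a0 t + N t 0 1 * a1 t = τ t * a0 t ∧
        N t 1 0 * a0 t + N t 1 1 * a1 t = τ t * a1 t := by
  refine ⟨?_, ?_, ?_⟩
  · have h1 := dτ.hasDerivAt.fun_add dτ'.hasDerivAt
    simp only [hs] at h1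
    have e1 := h1.unique hD
    have h2 := dτ.hasDerivAt.fun_mul dτ'.hasDerivAt
    simp only [hp] at h2
    have e2 := h2.unique (hasDerivAt_const _ _)
    have : deriv τ 0 * (τ 0 - τ' 0) = 0 := by linear_combination τ 0 * e1 - e2
    have e3 : deriv τ 0 = 0 := (mul_eq_zero.1 this).resolve_right (sub_ne_zero.2 hne)
    exact dτ.hasDerivAt.congr_deriv e3
  · set D : ℂ → ℂ := fun t => N t 0 0 + N t 1 1 with hD'
    have dD : Differentiable ℂ D := (dN 0 0).add (dN 1 1)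
    have dD' : Differentiable ℂ fun t => D (-t) := dD.comp differentiable_neg
    have : ∀ᶠ t in 𝓝[≠] (0:ℂ), D t ≠ D (-t) := by
      by_contra h
      have h' : ∃ᶠ t in 𝓝[≠] (0:ℂ), D t = D (-t) := by
        rw [Filter.Frequently]; simpa using h
      have := AnalyticOnNhd.eq_of_frequently_eq (fun z _ => dD.analyticAt z)
        (fun z _ => dD'.analyticAt z) h'
      obtain ⟨t, ht⟩ := hodd
      exact ht (congrFun this t)
    filter_upwards [this] with t ht h
    apply ht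
    show N t 0 0 + N t 1 1 = N (-t) 0 0 + N (-t) 1 1
    rw [← hs, ← hs]
    have h1 := hp t
    have h2 := hp (-t)
    have : τ' t = τ' (-t) := by
      linear_combination (-τ' t) * h2 + τ' (-t) * h1 - τ' t * τ' (-t) * h
    rw [h, this]
  · by_cases h : N 0 0 0 - τ' 0 = 0
    · refine ⟨fun t => N t 0 1, fun t => N t 1 1 - τ' t, dN 0 1 0, (dN 1 1 0).sub dτ', ?_, fun t => ?_⟩
      · rintro ⟨-, h2⟩
        apply hne
        linear_combination hs 0 + h + h2
      · constructor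
        · linear_combination (-N t 0 1) * hs t
        · linear_combination (-N t 1 1) * hs t - hdet t + hp t
    · refine ⟨fun t => N t 0 0 - τ' t, fun t => N t 1 0, (dN 0 0 0).sub dτ', dN 1 0 0,
        fun h2 => h h2.1, fun t => ?_⟩
      constructor
      · linear_combination (-N t 0 0) * hs t - hdet t + hp t
      · linear_combination (-N t 1 0) * hs t

/-- companion matrix -/
def comp0 (p0 p1 p2 : ℂ) : Matrix (Fin 4) (Fin 4) ℂ :=
  !![0, 1, 0, 0; 0, 0, 1, 0; 0, 0, 0, 1; -p0, -p1, -p2, 0]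

def comp1 : Matrix (Fin 4) (Fin 4) ℂ := !![0, 0, 0, 0; 0, 0, 0, 0; 0, 0, 0, 0; 1, 0, 0, 0]

lemma comp_mulVec (p0 p1 p2 l : ℂ) (y : Fin 4 → ℂ) :
    (comp0 p0 p1 p2 + l • comp1).mulVec y =
      ![y 1, y 2, y 3, l * y 0 - p0 * y 0 - p1 * y 1 - p2 * y 2] := by
  ext i
  fin_cases i <;> simp [comp0, comp1, Matrix.mulVec, dotProduct, Fin.sum_univ_four]
  ring

theorem floquet4 (p : ℕ → ℝ → ℂ) (hc : ∀ k, Continuous (p k)) {b : ℝ} (hb : b ≠ 0)
    (hp : ∀ k, Function.Periodic (p k) b) :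
    ∃ T : ℂ → Matrix (Fin 4) (Fin 4) ℂ, IsFloquetMatrix 4 b p T ∧
      (∀ i j, Differentiable ℂ fun l => T l i j) ∧
      ∀ (l : ℂ) (y0 y1 y2 y3 : ℝ → ℂ), (∀ x, HasDerivAt y0 (y1 x) x) →
        (∀ x, HasDerivAt y1 (y2 x) x) → (∀ x, HasDerivAt y2 (y3 x) x) →
        (∀ x, HasDerivAt y3 (l * y0 x - p 0 x * y0 x - p 1 x * y1 x - p 2 x * y2 x) x) →
        (T l).mulVec ![y0 0, y1 0, y2 0, y3 0] = ![y0 b, y1 b, y2 b, y3 b] := by
  have c0 := hc 0
  have c1 := hc 1
  have c2 := hc 2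
  obtain ⟨Φ, a0, a1, a2, a3⟩ := exists_fund (n := 4) (fun x => comp0 (p 0 x) (p 1 x) (p 2 x))
    (fun _ => comp1) (by
      refine continuous_matrix fun i j => ?_
      fin_cases i <;> fin_cases j <;> simp [comp0] <;> fun_prop) continuous_const hb
    (fun x => by simp only [hp 0 x, hp 1 x, hp 2 x]) (fun x => rfl)
  simp only [comp_mulVec] at a1 a3
  refine ⟨fun l => Φ l b, fun l => ?_, a2 b, fun l y0 y1 y2 y3 h0 h1 h2 h3 => ?_⟩
  · have d0 : ∀ j x, HasDerivAt (fun x => Φ l x 0 j) (Φ l x 1 j) x := fun j x => by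
      simpa using hasDerivAt_pi.1 (a1 l x j) 0
    have d1 : ∀ j x, HasDerivAt (fun x => Φ l x 1 j) (Φ l x 2 j) x := fun j x => by
      simpa using hasDerivAt_pi.1 (a1 l x j) 1
    have d2 : ∀ j x, HasDerivAt (fun x => Φ l x 2 j) (Φ l x 3 j) x := fun j x => by
      simpa using hasDerivAt_pi.1 (a1 l x j) 2
    have d3 : ∀ j x, HasDerivAt (fun x => Φ l x 3 j)
        (l * Φ l x 0 j - p 0 x * Φ l x 0 j - p 1 x * Φ l x 1 j - p 2 x * Φ l x 2 j) x :=
      fun j x => by simpa using hasDerivAt_pi.1 (a1 l x j) 3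
    have e0 : ∀ j, deriv (fun x => Φ l x 0 j) = fun x => Φ l x 1 j :=
      fun j => funext fun x => (d0 j x).deriv
    have e1 : ∀ j, deriv (fun x => Φ l x 1 j) = fun x => Φ l x 2 j :=
      fun j => funext fun x => (d1 j x).deriv
    have e2 : ∀ j, deriv (fun x => Φ l x 2 j) = fun x => Φ l x 3 j :=
      fun j => funext fun x => (d2 j x).deriv
    have e3 : ∀ j, deriv (fun x => Φ l x 3 j) = fun x =>
        l * Φ l x 0 j - p 0 x * Φ l x 0 j - p 1 x * Φ l x 1 j - p 2 x * Φ l x 2 j :=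
      fun j => funext fun x => (d3 j x).deriv
    have i1 : ∀ j, iteratedDeriv 1 (fun x => Φ l x 0 j) = fun x => Φ l x 1 j := fun j => by
      rw [iteratedDeriv_one, e0]
    have i2 : ∀ j, iteratedDeriv 2 (fun x => Φ l x 0 j) = fun x => Φ l x 2 j := fun j => by
      rw [iteratedDeriv_succ, i1, e1]
    have i3 : ∀ j, iteratedDeriv 3 (fun x => Φ l x 0 j) = fun x => Φ l x 3 j := fun j => by
      rw [iteratedDeriv_succ, i2, e2]
    have i4 : ∀ j, iteratedDeriv 4 (fun x => Φ l x 0 j) = fun x =>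
        l * Φ l x 0 j - p 0 x * Φ l x 0 j - p 1 x * Φ l x 1 j - p 2 x * Φ l x 2 j := fun j => by
      rw [iteratedDeriv_succ, i3, e3]
    refine ⟨fun j x => Φ l x 0 j, fun j => ⟨?_, fun x => ?_⟩, fun j k => ?_, fun j x => ?_⟩
    · have k0 : Continuous fun x => Φ l x 0 j :=
        continuous_iff_continuousAt.2 fun x => (d0 j x).continuousAt
      have k1 : Continuous fun x => Φ l x 1 j :=
        continuous_iff_continuousAt.2 fun x => (d1 j x).continuousAt
      have k2 : Continuous fun x => Φ l x 2 j :=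
        continuous_iff_continuousAt.2 fun x => (d2 j x).continuousAt
      have s3 : ContDiff ℝ 1 fun x => Φ l x 3 j :=
        contDiff_one_iff_deriv.2 ⟨fun x => (d3 j x).differentiableAt, by rw [e3]; fun_prop⟩
      have s2 : ContDiff ℝ (1 + 1) fun x => Φ l x 2 j :=
        contDiff_succ_iff_deriv.2 ⟨fun x => (d2 j x).differentiableAt, by simp, by rw [e2]; exact s3⟩
      have s1 : ContDiff ℝ (1 + 1 + 1) fun x => Φ l x 1 j :=
        contDiff_succ_iff_deriv.2 ⟨fun x => (d1 j x).differentiableAt, by simp, by rw [e1]; exact s2⟩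
      have s0 : ContDiff ℝ (1 + 1 + 1 + 1) fun x => Φ l x 0 j :=
        contDiff_succ_iff_deriv.2 ⟨fun x => (d0 j x).differentiableAt, by simp, by rw [e0]; exact s1⟩
      convert s0 using 1
      norm_num
    · simp only [Nat.add_one_sub_one, Finset.sum_range_succ, Finset.range_zero, Finset.sum_empty,
        iteratedDeriv_zero, zero_add, i1, i2, i4]
      ring
    · have : ∀ k : Fin 4, iteratedDeriv (k : ℕ) (fun x => Φ l x 0 j) = fun x => Φ l x k j := by
        intro k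
        fin_cases k
        · exact iteratedDeriv_zero
        · exact i1 j
        · exact i2 j
        · exact i3 j
      rw [this]
      simp only [a0, Matrix.one_apply, eq_comm]
    · have := a3 l (fun x i => Φ l (x + b) i j) (fun x => by
        have := (a1 l (x + b) j).comp_add_const x b
        simp only [hp 0 x, hp 1 x, hp 2 x] at this
        exact this) x
      have := congrFun this 0
      simp only [zero_add, Matrix.mulVec, dotProduct] at this
      exact this.trans (Finset.sum_congr rfl fun k _ => mul_comm _ _)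
  · have := a3 l (fun x => ![y0 x, y1 x, y2 x, y3 x]) (fun x => by
      refine hasDerivAt_pi.2 fun i => ?_
      fin_cases i
      · simpa using h0 x
      · simpa using h1 x
      · simpa using h2 x
      · simpa using h3 x) b
    exact this.symm

lemma jet {T : ℂ → Matrix (Fin 4) (Fin 4) ℂ} {Q Q1 Q2 : ℝ → ℂ} (hQ : ∀ x, HasDerivAt Q (Q1 x) x)
    (hQ1 : ∀ x, HasDerivAt Q1 (Q2 x) x) (pQ : Q π = Q 0) (pQ1 : Q1 π = Q1 0)
    (hT : ∀ (l : ℂ) (y0 y1 y2 y3 : ℝ → ℂ), (∀ x, HasDerivAt y0 (y1 x) x) →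
        (∀ x, HasDerivAt y1 (y2 x) x) → (∀ x, HasDerivAt y2 (y3 x) x) →
        (∀ x, HasDerivAt y3 (l * y0 x - (Q x ^ 2 - Q2 x) * y0 x - (-2 * Q1 x) * y1 x
          - (-2 * Q x) * y2 x) x) →
        (T l).mulVec ![y0 0, y1 0, y2 0, y3 0] = ![y0 π, y1 π, y2 π, y3 π])
    {Φ : ℂ → ℝ → Matrix (Fin 2) (Fin 2) ℂ} (a0 : ∀ t, Φ t 0 = 1)
    (a1 : ∀ t x j, HasDerivAt (fun x => Φ t x 0 j) (Φ t x 1 j) x)
    (a2 : ∀ t x j, HasDerivAt (fun x => Φ t x 1 j) ((Q x + t) * Φ t x 0 j) x)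
    {τ α β : ℂ → ℂ} (dα : DifferentiableAt ℂ α 0) (dβ : DifferentiableAt ℂ β 0)
    (hne : ¬ (α 0 = 0 ∧ β 0 = 0))
    (he : ∀ t, Φ t π 0 0 * α t + Φ t π 0 1 * β t = τ t * α t ∧
        Φ t π 1 0 * α t + Φ t π 1 1 * β t = τ t * β t) :
    ∃ (v : ℂ → Fin 4 → ℂ) (v' : Fin 4 → ℂ), HasDerivAt v v' 0 ∧ LinearIndependent ℂ ![v 0, v'] ∧
      ∀ t, (T (t ^ 2)).mulVec (v t) = τ t • v t := by
  refine ⟨fun t => ![α t, β t, (Q 0 + t) * α t, Q1 0 * α t + (Q 0 + t) * β t],
    ![deriv α 0, deriv β 0, α 0 + Q 0 * deriv α 0, Q1 0 * deriv α 0 + (β 0 + Q 0 * deriv β 0)],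
    ?_, ?_, fun t => ?_⟩
  · have hid : HasDerivAt (fun t : ℂ => Q 0 + t) 1 0 := (hasDerivAt_id' (0:ℂ)).const_add _
    refine hasDerivAt_pi.2 fun i => ?_
    fin_cases i
    · simpa using dα.hasDerivAt
    · simpa using dβ.hasDerivAt
    · simpa using hid.fun_mul dα.hasDerivAt
    · simpa using (dα.hasDerivAt.const_mul (Q1 0)).fun_add (hid.fun_mul dβ.hasDerivAt)
  · rw [LinearIndependent.pair_iff]
    intro s t h
    have h0 := congrFun h 0
    have h1 := congrFun h 1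
    have h2 := congrFun h 2
    have h3 := congrFun h 3
    simp at h0 h1 h2 h3
    have t1 : t * α 0 = 0 := by linear_combination h2 - Q 0 * h0
    have t2 : t * β 0 = 0 := by linear_combination h3 - Q1 0 * h0 - Q 0 * h1
    have ht : t = 0 := by
      by_contra ht
      exact hne ⟨(mul_eq_zero.1 t1).resolve_left ht, (mul_eq_zero.1 t2).resolve_left ht⟩
    subst ht
    refine ⟨?_, rfl⟩
    by_contra hs
    exact hne ⟨by simpa [hs] using h0, by simpa [hs] using h1⟩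
  · set u : ℝ → ℂ := fun x => Φ t x 0 0 * α t + Φ t x 0 1 * β t with hu
    set du : ℝ → ℂ := fun x => Φ t x 1 0 * α t + Φ t x 1 1 * β t with hdu
    have d0 : ∀ x, HasDerivAt u (du x) x := fun x =>
      ((a1 t x 0).mul_const _).fun_add ((a1 t x 1).mul_const _)
    have d1 : ∀ x, HasDerivAt du ((Q x + t) * u x) x := fun x => by
      refine (((a2 t x 0).mul_const _).fun_add ((a2 t x 1).mul_const _)).congr_deriv ?_
      simp only [hu]; ring
    have := hT (t ^ 2) u du (fun x => (Q x + t) * u x) (fun x => Q1 x * u x + (Q x + t) * du x)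
      d0 d1 (fun x => ((hQ x).add_const t).fun_mul (d0 x)) (fun x => by
        refine (((hQ1 x).fun_mul (d0 x)).fun_add
          (((hQ x).add_const t).fun_mul (d1 x))).congr_deriv ?_
        ring)
    have u0 : u 0 = α t := by simp [hu, a0]
    have du0 : du 0 = β t := by simp [hdu, a0]
    have u1 : u π = τ t * α t := (he t).1
    have du1 : du π = τ t * β t := (he t).2
    simp only [u0, du0, u1, du1, pQ, pQ1] at this
    rw [this]
    ext i
    fin_cases i <;> simp <;> ring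

noncomputable def qq (x : ℝ) : ℝ := 4 * cos x ^ 4 - 8 * (sin x * cos x) - 1
noncomputable def q1 (x : ℝ) : ℝ := -16 * cos x ^ 3 * sin x - 8 * (cos x ^ 2 - sin x ^ 2)
noncomputable def q2 (x : ℝ) : ℝ :=
  48 * cos x ^ 2 * sin x ^ 2 - 16 * cos x ^ 4 + 32 * (sin x * cos x)

lemma qq_deriv (x : ℝ) : HasDerivAt qq (q1 x) x := by
  refine (((((hasDerivAt_cos x).fun_pow 4).const_mul 4).fun_sub
    (((hasDerivAt_sin x).fun_mul (hasDerivAt_cos x)).const_mul 8)).sub_const 1).congr_deriv ?_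
  simp only [q1]; norm_num; ring

lemma q1_deriv (x : ℝ) : HasDerivAt q1 (q2 x) x := by
  refine (((((hasDerivAt_cos x).fun_pow 3).const_mul (-16)).fun_mul (hasDerivAt_sin x)).fun_sub
    ((((hasDerivAt_cos x).fun_pow 2).fun_sub ((hasDerivAt_sin x).fun_pow 2)).const_mul
      8)).congr_deriv ?_
  simp only [q2]; norm_num; ring

lemma qq_per : Function.Periodic qq π := fun x => by simp only [qq, cos_add_pi, sin_add_pi]; ring
lemma q1_per : Function.Periodic q1 π := fun x => by simp only [q1, cos_add_pi, sin_add_pi]; ring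
lemma q2_per : Function.Periodic q2 π := fun x => by simp only [q2, cos_add_pi, sin_add_pi]; ring

lemma qq_bound (x : ℝ) : |qq x| ≤ 13 := by
  have h := sin_sq_add_cos_sq x
  have c2 : cos x ^ 2 ≤ 1 := cos_sq_le_one x
  have c4 : cos x ^ 4 ≤ 1 := by nlinarith [sq_nonneg (cos x)]
  have c5 : 0 ≤ cos x ^ 4 := by positivity
  rw [abs_le, qq]
  constructor <;> nlinarith [sq_nonneg (sin x + cos x), sq_nonneg (sin x - cos x)]

noncomputable def ps (x : ℝ) : ℝ := exp (x + sin x * cos x) * cos x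
noncomputable def dps (x : ℝ) : ℝ := exp (x + sin x * cos x) * (2 * cos x ^ 3 - sin x)

lemma ex_deriv (x : ℝ) : HasDerivAt (fun x => exp (x + sin x * cos x))
    (exp (x + sin x * cos x) * (2 * cos x ^ 2)) x := by
  refine ((hasDerivAt_id' x).fun_add
    ((hasDerivAt_sin x).fun_mul (hasDerivAt_cos x))).exp.congr_deriv ?_
  congr 1
  linear_combination (-1) * sin_sq_add_cos_sq x

lemma ps_deriv (x : ℝ) : HasDerivAt ps (dps x) x := by
  refine ((ex_deriv x).fun_mul (hasDerivAt_cos x)).congr_deriv ?_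
  simp only [dps]; ring

lemma dps_deriv (x : ℝ) : HasDerivAt dps (qq x * ps x) x := by
  refine ((ex_deriv x).fun_mul ((((hasDerivAt_cos x).fun_pow 3).const_mul 2).fun_sub
    (hasDerivAt_sin x))).congr_deriv ?_
  simp only [qq, ps]; norm_num; ring

/-- coefficients of `(D^2 - q - z)^2` -/
noncomputable def coef (z : ℝ) : ℕ → ℝ → ℝ
  | 0 => fun x => (qq x + z) ^ 2 - q2 x
  | 1 => fun x => -2 * q1 x
  | 2 => fun x => -2 * (qq x + z)
  | _ + 3 => fun _ => 0

theorem main : ∃ (p : ℕ → ℝ → ℝ) (T : ℂ → Matrix (Fin 4) (Fin 4) ℂ),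
    (∀ k, ContDiff ℝ ⊤ (p k) ∧ Function.Periodic (p k) π) ∧
    IsFloquetMatrix 4 π (fun k x => (p k x : ℂ)) T ∧
    (∀ i j, Differentiable ℂ fun l => T l i j) ∧ FirstKind T 0 ∧ ⨆ μ, eig (T 0) μ = ⊤ := by
  have s0 : ContDiff ℝ ⊤ qq := by unfold qq; fun_prop
  have s1 : ContDiff ℝ ⊤ q1 := by unfold q1; fun_prop
  have s2 : ContDiff ℝ ⊤ q2 := by unfold q2; fun_prop
  obtain ⟨Φ, z0, a0, a1, a2, a3, hdet, hD, him, hre, t0, ht0⟩ := hill_crit qq s0.continuous qq_per
    qq_bound ps dps ps_deriv dps_deriv (r := -exp π)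
    (by linarith [add_one_le_exp π, pi_gt_three]) (by simp [ps]) (by simp [dps]; ring)
    (by simp [ps])
  have hp : ∀ k, ContDiff ℝ ⊤ (coef z0 k) ∧ Function.Periodic (coef z0 k) π := by
    intro k
    match k with
    | 0 => exact ⟨by unfold coef; fun_prop, fun x => by simp only [coef, qq_per x, q2_per x]⟩
    | 1 => exact ⟨by unfold coef; fun_prop, fun x => by simp only [coef, q1_per x]⟩
    | 2 => exact ⟨by unfold coef; fun_prop, fun x => by simp only [coef, qq_per x]⟩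
    | k + 3 => exact ⟨contDiff_const, fun x => rfl⟩
  obtain ⟨T, hT, dT, jT⟩ := floquet4 (fun k x => (coef z0 k x : ℂ))
    (fun k => Complex.continuous_ofReal.comp (hp k).1.continuous) pi_pos.ne'
    (fun k x => by simp only [(hp k).2 x])
  refine ⟨coef z0, T, hp, hT, dT, ?_⟩
  set N : ℂ → Matrix (Fin 2) (Fin 2) ℂ := fun t => Φ (z0 + t) π with hN
  have dN : ∀ i j, Differentiable ℂ fun t => N t i j := fun i j =>
    (a3 π i j).comp (differentiable_id.const_add (z0 : ℂ))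
  have hD' : HasDerivAt (fun t => N t 0 0 + N t 1 1) 0 0 := by
    have h1 : HasDerivAt (fun z => Φ z π 0 0 + Φ z π 1 1) 0 ((z0 : ℂ) + 0) := by simpa using hD
    exact h1.comp_const_add (z0 : ℂ) 0
  have hodd : ∃ t, N t 0 0 + N t 1 1 ≠ N (-t) 0 0 + N (-t) 1 1 :=
    ⟨t0, by simpa only [hN, ← sub_eq_add_neg] using ht0⟩
  set D : ℂ → ℂ := fun t => N t 0 0 + N t 1 1 with hDD
  have dD : Differentiable ℂ D := (dN 0 0).add (dN 1 1)
  have D0 : D 0 = ((D 0).re : ℂ) := by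
    apply Complex.ext
    · simp
    · simpa [hDD, hN] using him
  have D1 : (D 0).re < -4 := by simpa [hDD, hN] using hre
  have hslit : D 0 ^ 2 - 4 ∈ Complex.slitPlane := by
    left
    rw [D0]
    have : (((D 0).re : ℂ) ^ 2 - 4) = (((D 0).re ^ 2 - 4 : ℝ) : ℂ) := by push_cast; ring
    rw [this, Complex.ofReal_re]
    nlinarith
  set s : ℂ → ℂ := fun t => (D t ^ 2 - 4) ^ ((2:ℂ)⁻¹) with hs
  have s2' : ∀ t, s t ^ 2 = D t ^ 2 - 4 := fun t => by
    have := Complex.cpow_nat_inv_pow (D t ^ 2 - 4) (n := 2) (by norm_num)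
    rw [Nat.cast_ofNat] at this
    exact this
  have aD : AnalyticAt ℂ D 0 := dD.analyticAt 0
  have as : AnalyticAt ℂ s 0 :=
    AnalyticAt.cpow (f := fun t => D t ^ 2 - 4) (g := fun _ => (2:ℂ)⁻¹)
      ((aD.pow 2).sub analyticAt_const) analyticAt_const hslit
  have s0' : s 0 ≠ 0 := by
    intro h
    have := s2' 0
    rw [h] at this
    exact Complex.slitPlane_ne_zero hslit (by rw [← this]; simp)
  have aρ : AnalyticAt ℂ (fun t => (D t + s t) / 2) 0 := (aD.add as).div_const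
  have aσ : AnalyticAt ℂ (fun t => (D t - s t) / 2) 0 := (aD.sub as).div_const
  have hne : (fun t => (D t + s t) / 2) 0 ≠ (fun t => (D t - s t) / 2) 0 := fun h =>
    s0' (by simp only at h; linear_combination h)
  obtain ⟨hρ, oρ, α, β, dα, dβ, n1, e1⟩ := branch dN (fun t => hdet _) hD' hodd
    aρ.differentiableAt aσ.differentiableAt (fun t => by simp only [hDD]; ring)
    (fun t => by linear_combination (-1 / 4 : ℂ) * s2' t) hne
  obtain ⟨hσ, oσ, γ, δ, dγ, dδ, n2, e2⟩ := branch dN (fun t => hdet _) hD' hodd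
    aσ.differentiableAt aρ.differentiableAt (fun t => by simp only [hDD]; ring)
    (fun t => by linear_combination (-1 / 4 : ℂ) * s2' t) hne.symm
  have hQ : ∀ x, HasDerivAt (fun x => ((qq x : ℂ) + z0)) (q1 x : ℂ) x := fun x =>
    (qq_deriv x).ofReal_comp.add_const _
  have hQ1 : ∀ x, HasDerivAt (fun x => (q1 x : ℂ)) (q2 x : ℂ) x := fun x =>
    (q1_deriv x).ofReal_comp
  have pQ : (qq π : ℂ) + z0 = (qq 0 : ℂ) + z0 := by
    have := qq_per 0
    rw [zero_add] at this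
    rw [this]
  have pQ1 : (q1 π : ℂ) = (q1 0 : ℂ) := by
    have := q1_per 0
    rw [zero_add] at this
    rw [this]
  have jT' : ∀ (l : ℂ) (y0 y1 y2 y3 : ℝ → ℂ), (∀ x, HasDerivAt y0 (y1 x) x) →
        (∀ x, HasDerivAt y1 (y2 x) x) → (∀ x, HasDerivAt y2 (y3 x) x) →
        (∀ x, HasDerivAt y3 (l * y0 x - (((qq x : ℂ) + z0) ^ 2 - q2 x) * y0 x
          - (-2 * (q1 x : ℂ)) * y1 x - (-2 * ((qq x : ℂ) + z0)) * y2 x) x) →
        (T l).mulVec ![y0 0, y1 0, y2 0, y3 0] = ![y0 π, y1 π, y2 π, y3 π] := by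
    intro l y0 y1 y2 y3 h0 h1 h2 h3
    refine jT l y0 y1 y2 y3 h0 h1 h2 fun x => (h3 x).congr_deriv ?_
    simp only [coef]
    push_cast
    ring
  have a2' : ∀ (t : ℂ) x j, HasDerivAt (fun x => Φ (z0 + t) x 1 j)
      (((qq x : ℂ) + z0 + t) * Φ (z0 + t) x 0 j) x := fun t x j => by
    rw [add_assoc]; exact a2 _ x j
  obtain ⟨v, v', hv, lv, ev⟩ := jet hQ hQ1 pQ pQ1 jT' (Φ := fun t => Φ (z0 + t)) (fun t => a0 _)
    (fun t => a1 _) a2' dα dβ n1 e1
  obtain ⟨w, w', hw, lw, ew⟩ := jet hQ hQ1 pQ pQ1 jT' (Φ := fun t => Φ (z0 + t)) (fun t => a0 _)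
    (fun t => a1 _) a2' dγ dδ n2 e2
  exact firstKind_of (continuous_matrix fun i j => (dT i j).continuous).continuousAt aρ hρ hσ hne
    hv hw lv lw (Eventually.of_forall ev) (Eventually.of_forall ew) oρ oσ

end Pool.Agent.H571Z.Flo
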