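import Mathlib

set_option autoImplicit false

namespace Pool.Agent.H571Z.Flo

open MeasureTheory Set Filter Topology

section general

variable {E : Type} [NormedAddCommGroup E] [NormedSpace ℝ E] [NormedSpace ℂ E]
  [IsScalarTower ℝ ℂ E] [CompleteSpace E]

/-- Picard iterates. -/
noncomputable def iter (A0 A1 : ℝ → E →L[ℂ] E) (y0 : E) (z : ℂ) : ℕ → ℝ → E
  | 0 => fun _ => y0
  | n + 1 => fun x => ∫ s in (0:ℝ)..x,
      (A0 s (iter A0 A1 y0 z n s) + z • A1 s (iter A0 A1 y0 z n s))

variable {A0 A1 : ℝ → E →L[ℂ] E}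

omit [IsScalarTower ℝ ℂ E] [CompleteSpace E] in
lemma iter_cont (h0 : Continuous A0) (h1 : Continuous A1) (y0 : E) (z : ℂ) (n : ℕ) :
    Continuous (iter A0 A1 y0 z n) := by
  induction n with
  | zero => exact continuous_const
  | succ n ih =>
    refine intervalIntegral.continuous_primitive (fun a b => ?_) 0
    exact ((h0.clm_apply ih).add ((h1.clm_apply ih).const_smul z)).intervalIntegrable a b

omit [IsScalarTower ℝ ℂ E] in
lemma iter_deriv (h0 : Continuous A0) (h1 : Continuous A1) (y0 : E) (z : ℂ) (n : ℕ) (x : ℝ) :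
    HasDerivAt (iter A0 A1 y0 z (n + 1))
      (A0 x (iter A0 A1 y0 z n x) + z • A1 x (iter A0 A1 y0 z n x)) x := by
  have hc : Continuous fun s => A0 s (iter A0 A1 y0 z n s) + z • A1 s (iter A0 A1 y0 z n s) :=
    (h0.clm_apply (iter_cont h0 h1 y0 z n)).add
      ((h1.clm_apply (iter_cont h0 h1 y0 z n)).const_smul z)
  exact intervalIntegral.integral_hasDerivAt_right (hc.intervalIntegrable _ _)
      (hc.stronglyMeasurableAtFilter _ _) hc.continuousAt

omit [NormedSpace ℝ E] [IsScalarTower ℝ ℂ E] [CompleteSpace E] in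
lemma step_le {M R : ℝ} (b0 : ∀ x, ‖A0 x‖ ≤ M) (b1 : ∀ x, ‖A1 x‖ ≤ M) {z : ℂ} (hz : ‖z‖ ≤ R)
    (s : ℝ) (y : E) : ‖A0 s y + z • A1 s y‖ ≤ M * (1 + R) * ‖y‖ := by
  have hM : 0 ≤ M := (norm_nonneg _).trans (b0 0)
  have e0 : ‖A0 s y‖ ≤ M * ‖y‖ :=
    ((A0 s).le_opNorm y).trans (mul_le_mul_of_nonneg_right (b0 s) (norm_nonneg _))
  have e1 : ‖A1 s y‖ ≤ M * ‖y‖ :=
    ((A1 s).le_opNorm y).trans (mul_le_mul_of_nonneg_right (b1 s) (norm_nonneg _))
  have e2 : ‖z • A1 s y‖ ≤ R * (M * ‖y‖) := by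
    rw [norm_smul]
    exact mul_le_mul hz e1 (norm_nonneg _) ((norm_nonneg _).trans hz)
  calc _ ≤ ‖A0 s y‖ + ‖z • A1 s y‖ := norm_add_le _ _
    _ ≤ M * ‖y‖ + R * (M * ‖y‖) := add_le_add e0 e2
    _ = _ := by ring

omit [IsScalarTower ℝ ℂ E] [CompleteSpace E] in
lemma iter_bound {M R : ℝ} (b0 : ∀ x, ‖A0 x‖ ≤ M) (b1 : ∀ x, ‖A1 x‖ ≤ M) (y0 : E) {z : ℂ}
    (hz : ‖z‖ ≤ R) (n : ℕ) (x : ℝ) :
    ‖iter A0 A1 y0 z n x‖ ≤ ‖y0‖ * ((M * (1 + R) * |x|) ^ n / (n.factorial : ℝ)) := by
  have hM : 0 ≤ M := (norm_nonneg _).trans (b0 0)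
  have hR : 0 ≤ R := (norm_nonneg _).trans hz
  induction n generalizing x with
  | zero => simp [iter]
  | succ n ih =>
    set K := M * (1 + R) with hK
    have hK0 : 0 ≤ K := by positivity
    simp only [iter]
    rw [intervalIntegral.norm_intervalIntegral_eq]
    have hle : ∀ t, ‖A0 t (iter A0 A1 y0 z n t) + z • A1 t (iter A0 A1 y0 z n t)‖ ≤
        K * (‖y0‖ * (K ^ n / (n.factorial : ℝ))) * |t - 0| ^ n := by
      intro t
      refine (step_le b0 b1 hz t _).trans ?_
      refine (mul_le_mul_of_nonneg_left (ih t) hK0).trans (le_of_eq ?_)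
      rw [mul_pow, sub_zero]; ring
    refine (norm_integral_le_of_norm_le
      (g := fun t => K * (‖y0‖ * (K ^ n / (n.factorial : ℝ))) * |t - 0| ^ n) ?_ ?_).trans ?_
    · have : Continuous fun t : ℝ => K * (‖y0‖ * (K ^ n / (n.factorial : ℝ))) * |t - 0| ^ n := by
        fun_prop
      exact (this.intervalIntegrable 0 x).def'
    · exact Filter.Eventually.of_forall hle
    · rw [integral_const_mul, integral_pow_abs_sub_uIoc]
      apply le_of_eq
      rw [Nat.factorial_succ, sub_zero]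
      push_cast
      have : (n.factorial : ℝ) ≠ 0 := by positivity
      have : ((n : ℝ) + 1) ≠ 0 := by positivity
      rw [mul_pow K, pow_succ K]
      clear_value K
      field_simp

omit [CompleteSpace E] in
lemma iter_poly (h0 : Continuous A0) (h1 : Continuous A1) (y0 : E) (n : ℕ) :
    ∃ (ι : Type) (_ : Fintype ι) (p : ι → ℕ) (c : ι → ℝ → E), (∀ i, Continuous (c i)) ∧
      ∀ z x, iter A0 A1 y0 z n x = ∑ i, z ^ (p i) • c i x := by
  induction n with
  | zero => exact ⟨Unit, inferInstance, fun _ => 0, fun _ _ => y0, fun _ => continuous_const,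
      fun z x => by simp [iter]⟩
  | succ n ih =>
    obtain ⟨ι, _, p, c, hc, h⟩ := ih
    have c0 : ∀ i, Continuous fun s => A0 s (c i s) := fun i => h0.clm_apply (hc i)
    have c1 : ∀ i, Continuous fun s => A1 s (c i s) := fun i => h1.clm_apply (hc i)
    refine ⟨ι ⊕ ι, inferInstance, Sum.elim p (fun i => p i + 1),
      Sum.elim (fun i x => ∫ s in (0:ℝ)..x, A0 s (c i s)) (fun i x => ∫ s in (0:ℝ)..x, A1 s (c i s)),
      ?_, fun z x => ?_⟩
    · rintro (i | i)
      · exact intervalIntegral.continuous_primitive (fun a b => (c0 i).intervalIntegrable a b) 0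
      · exact intervalIntegral.continuous_primitive (fun a b => (c1 i).intervalIntegrable a b) 0
    · simp only [iter, Fintype.sum_sum_type, Sum.elim_inl, Sum.elim_inr]
      have : ∀ s, A0 s (iter A0 A1 y0 z n s) + z • A1 s (iter A0 A1 y0 z n s) =
          ∑ i, (z ^ (p i) • A0 s (c i s) + z ^ (p i + 1) • A1 s (c i s)) := by
        intro s
        rw [h, map_sum, map_sum, Finset.smul_sum, ← Finset.sum_add_distrib]
        refine Finset.sum_congr rfl fun i _ => ?_
        rw [map_smul, map_smul, smul_smul, pow_succ']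
      simp_rw [this]
      rw [intervalIntegral.integral_finsetSum, ← Finset.sum_add_distrib]
      · refine Finset.sum_congr rfl fun i _ => ?_
        rw [intervalIntegral.integral_add, intervalIntegral.integral_smul,
          intervalIntegral.integral_smul]
        · exact ((c0 i).const_smul _).intervalIntegrable _ _
        · exact ((c1 i).const_smul _).intervalIntegrable _ _
      · intro i _
        exact (((c0 i).const_smul _).add ((c1 i).const_smul _)).intervalIntegrable _ _

theorem lin_ode (h0 : Continuous A0) (h1 : Continuous A1) {M : ℝ}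
    (b0 : ∀ x, ‖A0 x‖ ≤ M) (b1 : ∀ x, ‖A1 x‖ ≤ M) (y0 : E) :
    ∃ Y : ℂ → ℝ → E, (∀ z, Y z 0 = y0) ∧
      (∀ z x, HasDerivAt (Y z) (A0 x (Y z x) + z • A1 x (Y z x)) x) ∧
      ∀ x, Differentiable ℂ fun z => Y z x := by
  have hM : 0 ≤ M := (norm_nonneg _).trans (b0 0)
  have hsum : ∀ z x, Summable fun n => iter A0 A1 y0 z n x := fun z x =>
    Summable.of_norm_bounded ((Real.summable_pow_div_factorial _).mul_left ‖y0‖)
      (fun n => iter_bound b0 b1 y0 (le_refl ‖z‖) n x)
  refine ⟨fun z x => ∑' n, iter A0 A1 y0 z n x, fun z => ?_, fun z x => ?_, fun x z => ?_⟩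
  · show ∑' n, iter A0 A1 y0 z n 0 = y0
    rw [tsum_eq_single 0]
    · rfl
    · intro n hn
      obtain ⟨m, rfl⟩ := Nat.exists_eq_succ_of_ne_zero hn
      simp [iter]
  · have e : (fun x => ∑' n, iter A0 A1 y0 z n x) =
        fun x => y0 + ∑' n, iter A0 A1 y0 z (n + 1) x := by
      funext x
      rw [(hsum z x).tsum_eq_zero_add]; rfl
    show HasDerivAt (fun x => ∑' n, iter A0 A1 y0 z n x) _ x
    rw [e]
    refine HasDerivAt.const_add y0 ?_
    set K := M * (1 + ‖z‖) with hK
    have hK0 : 0 ≤ K := by positivity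
    have key := hasDerivAt_tsum_of_isPreconnected (𝕜 := ℝ)
      (u := fun n => K * (‖y0‖ * ((K * (|x| + 1)) ^ n / (n.factorial : ℝ))))
      (g := fun n => iter A0 A1 y0 z (n + 1))
      (g' := fun n s => A0 s (iter A0 A1 y0 z n s) + z • A1 s (iter A0 A1 y0 z n s))
      (t := Metric.ball 0 (|x| + 1)) (y₀ := x) (y := x)
      (((Real.summable_pow_div_factorial _).mul_left ‖y0‖).mul_left K) Metric.isOpen_ball
      (convex_ball _ _).isPreconnected (fun n y _ => iter_deriv h0 h1 y0 z n y)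
      (fun n y hy => by
        refine (step_le b0 b1 (le_refl ‖z‖) y _).trans ?_
        refine mul_le_mul_of_nonneg_left ((iter_bound b0 b1 y0 (le_refl ‖z‖) n y).trans ?_) hK0
        have hy' : |y| ≤ |x| + 1 := by
          have := mem_ball_zero_iff.1 hy
          rw [Real.norm_eq_abs] at this
          exact this.le
        gcongr)
      (by simp) ((summable_nat_add_iff 1).2 (hsum z x)) (by simp)
    convert key using 1
    have s0 := (A0 x).map_tsum (hsum z x)
    have s1 := (A1 x).map_tsum (hsum z x)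
    rw [s0, s1, ← ((A1 x).summable (hsum z x)).tsum_const_smul z,
      ← ((A0 x).summable (hsum z x)).tsum_add (((A1 x).summable (hsum z x)).const_smul z)]
  · have : DifferentiableOn ℂ (fun w => ∑' n, iter A0 A1 y0 w n x) (Metric.ball 0 (‖z‖ + 1)) := by
      refine Complex.differentiableOn_tsum_of_summable_norm
        ((Real.summable_pow_div_factorial (M * (1 + (‖z‖ + 1)) * |x|)).mul_left ‖y0‖)
        (fun n => ?_) Metric.isOpen_ball
        (fun n w hw => iter_bound b0 b1 y0 (mem_ball_zero_iff.1 hw).le n x)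
      obtain ⟨ι, _, p, c, -, h⟩ := iter_poly h0 h1 y0 n
      simp_rw [h]
      exact Differentiable.differentiableOn (by fun_prop)
    exact this.differentiableAt (Metric.isOpen_ball.mem_nhds (by simp))

omit [IsScalarTower ℝ ℂ E] [CompleteSpace E] in
theorem lin_uniq {M : ℝ} (b0 : ∀ x, ‖A0 x‖ ≤ M) (b1 : ∀ x, ‖A1 x‖ ≤ M) (z : ℂ) {f g : ℝ → E}
    (hf : ∀ x, HasDerivAt f (A0 x (f x) + z • A1 x (f x)) x)
    (hg : ∀ x, HasDerivAt g (A0 x (g x) + z • A1 x (g x)) x) (h : f 0 = g 0) : f = g := by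
  have hM : 0 ≤ M := (norm_nonneg _).trans (b0 0)
  refine ODE_solution_unique_univ (K := ⟨M * (1 + ‖z‖), by positivity⟩)
    (v := fun x y => A0 x y + z • A1 x y) (s := fun _ => univ) (fun t => ?_)
    (fun t => ⟨hf t, trivial⟩) (fun t => ⟨hg t, trivial⟩) h
  refine LipschitzWith.lipschitzOnWith (LipschitzWith.of_dist_le_mul fun a b => ?_)
  rw [dist_eq_norm, dist_eq_norm]
  have := step_le b0 b1 (le_refl ‖z‖) t (a - b)
  rw [map_sub, map_sub, smul_sub] at this
  refine le_trans (le_of_eq ?_) this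
  congr 1
  abel

end general

section mat

variable {n : ℕ}

/-- Fundamental matrix of a periodic linear system depending affinely on a parameter. -/
theorem exists_fund (A0 A1 : ℝ → Matrix (Fin n) (Fin n) ℂ) (h0 : Continuous A0)
    (h1 : Continuous A1) {b : ℝ} (hb : b ≠ 0) (p0 : Function.Periodic A0 b)
    (p1 : Function.Periodic A1 b) :
    ∃ Φ : ℂ → ℝ → Matrix (Fin n) (Fin n) ℂ, (∀ z, Φ z 0 = 1) ∧
      (∀ z x j, HasDerivAt (fun x => fun i => Φ z x i j)
        ((A0 x + z • A1 x).mulVec fun i => Φ z x i j) x) ∧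
      (∀ x i j, Differentiable ℂ fun z => Φ z x i j) ∧
      ∀ z (Y : ℝ → Fin n → ℂ), (∀ x, HasDerivAt Y ((A0 x + z • A1 x).mulVec (Y x)) x) →
        ∀ x, Y x = (Φ z x).mulVec (Y 0) := by
  let L : Matrix (Fin n) (Fin n) ℂ →ₗ[ℂ] ((Fin n → ℂ) →L[ℂ] (Fin n → ℂ)) :=
    (Matrix.toLin'.trans LinearMap.toContinuousLinearMap).toLinearMap
  have hL : ∀ A v, L A v = A.mulVec v := fun A v => by simp [L]
  have cL : Continuous L := LinearMap.continuous_of_finiteDimensional L
  have c0 : Continuous fun x => L (A0 x) := cL.comp h0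
  have c1 : Continuous fun x => L (A1 x) := cL.comp h1
  have q0 : Function.Periodic (fun x => L (A0 x)) b := fun x => by simp only [p0 x]
  have q1 : Function.Periodic (fun x => L (A1 x)) b := fun x => by simp only [p1 x]
  obtain ⟨M0, hM0⟩ := (q0.isBounded_of_continuous hb c0).exists_norm_le
  obtain ⟨M1, hM1⟩ := (q1.isBounded_of_continuous hb c1).exists_norm_le
  have b0 : ∀ x, ‖L (A0 x)‖ ≤ max M0 M1 := fun x => le_max_of_le_left (hM0 _ ⟨x, rfl⟩)
  have b1 : ∀ x, ‖L (A1 x)‖ ≤ max M0 M1 := fun x => le_max_of_le_right (hM1 _ ⟨x, rfl⟩)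
  have hrw : ∀ (z : ℂ) x v, L (A0 x) v + z • L (A1 x) v = (A0 x + z • A1 x).mulVec v := by
    intro z x v
    rw [hL, hL, Matrix.add_mulVec, Matrix.smul_mulVec]
  choose Y hY0 hY1 hY2 using fun j : Fin n => lin_ode c0 c1 b0 b1 (Pi.single j (1:ℂ))
  have hd : ∀ z x j, HasDerivAt (fun x => fun i => Y j z x i)
      ((A0 x + z • A1 x).mulVec fun i => Y j z x i) x := by
    intro z x j
    have := hY1 j z x
    rw [hrw] at this
    exact this
  refine ⟨fun z x => Matrix.of fun i j => Y j z x i, fun z => ?_, hd, fun x i j => ?_,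
    fun z W hW x => ?_⟩
  · ext i j
    simp [hY0, Matrix.one_apply, Pi.single_apply]
  · exact differentiable_pi.1 (hY2 j x) i
  · have e : ∀ x, (Matrix.of fun i j => Y j z x i).mulVec (W 0) = ∑ j, W 0 j • Y j z x := by
      intro x
      ext i
      simp [Matrix.mulVec, dotProduct, mul_comm]
    have := lin_uniq b0 b1 z (f := W) (g := fun x => ∑ j, W 0 j • Y j z x)
      (fun x => by rw [hrw]; exact hW x)
      (fun x => by
        have := HasDerivAt.fun_sum (u := Finset.univ) fun j _ => (hY1 j z x).const_smul (W 0 j)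
        refine this.congr_deriv ?_
        rw [map_sum, map_sum, Finset.smul_sum, ← Finset.sum_add_distrib]
        refine Finset.sum_congr rfl fun j _ => ?_
        rw [map_smul, map_smul, smul_add, smul_comm])
      (by
        ext i
        simp [hY0, Pi.single_apply])
    rw [e]
    exact congrFun this x

end mat

end Pool.Agent.H571Z.Flo
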